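import Pool.Agent.helper55.NM.Spec2

/-! Row nm:ASM of project NM (helper55): the assembly of the three parts. -/

namespace Pool.Agent.helper28.NM

open Pool.Agent.NM Pool.Agent.helper72.UP Finset Nat

open Classical in
theorem ASM (hPA : PA_stmt) (hPC : PC_stmt) (hBZ : BZ_stmt) (hSYM : SYM_stmt) : ASM_stmt := by
  intro ε hε
  obtain ⟨p0, n1, h1⟩ := hPA ε hε
  obtain ⟨n2, h2⟩ := hPC ε hε
  have hB : ∀ p : ℕ, ∃ N : ℕ, 3 ≤ p → ∀ (n k : ℕ) (x : Fin n → ℝ), N ≤ n →
      (1 / 3 + ε) * n ≤ k → (k : ℝ) ≤ (1 / 2 - ε) * n → (∀ i, x i ≠ 0) →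
      (univ.filter (fun i => 0 < x i)).card = p → zer x k ≤ 2 * (n - 2).choose (k - 1) := by
    intro p
    by_cases hp : 3 ≤ p
    · obtain ⟨N, hN⟩ := hBZ ε p hε hp
      exact ⟨N, fun _ => hN⟩
    · exact ⟨0, fun h => absurd h hp⟩
  choose N hN using hB
  refine ⟨max n1 (max n2 ((range p0).sup N)), ?_⟩
  intro n k x hn hk1 hk2 hx
  have hn1 : n1 ≤ n := le_trans (le_max_left _ _) hn
  have hn2 : n2 ≤ n := le_trans (le_trans (le_max_left _ _) (le_max_right _ _)) hn
  have hn3 : (range p0).sup N ≤ n := le_trans (le_trans (le_max_right _ _) (le_max_right _ _)) hn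
  have hnn : (0 : ℝ) ≤ n := Nat.cast_nonneg n
  have hen : 0 ≤ ε * n := mul_nonneg hε.le hnn
  have hk3 : (n : ℝ) / 3 ≤ k := by nlinarith [hk1, hen]
  have hk4 : (1 / 3 : ℝ) * n ≤ k := by nlinarith [hk1, hen]
  have key : ∀ y : Fin n → ℝ, (∀ i, y i ≠ 0) → (univ.filter (fun i => 0 < y i)).card < p0 →
      zer y k ≤ 2 * (n - 2).choose (k - 1) := by
    intro y hy hlt
    by_cases h3 : 3 ≤ (univ.filter (fun i => 0 < y i)).card
    · refine hN _ h3 n k y ?_ hk1 hk2 hy rfl
      exact le_trans (Finset.le_sup (f := N) (mem_range.mpr hlt)) hn3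
    · exact h2 n k y hn2 hk3 hk2 hy (by omega)
  by_cases ha : (univ.filter (fun i => 0 < x i)).card < p0
  · exact key x hx ha
  · by_cases hb : (univ.filter (fun i => x i < 0)).card < p0
    · rw [← hSYM n k x]
      refine key (fun i => - x i) (fun i => neg_ne_zero.mpr (hx i)) ?_
      have he : (univ.filter (fun i => 0 < - x i)) = univ.filter (fun i => x i < 0) := by
        ext i
        simp only [mem_filter, mem_univ, true_and, Left.neg_pos_iff]
      have he2 : (univ.filter (fun i => 0 < (fun i => - x i) i)).card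
          = (univ.filter (fun i => x i < 0)).card := by
        rw [← he]
      rw [he2]
      exact hb
    · exact h1 n k x hn1 hk4 hk2 hx (by omega) (by omega)

end Pool.Agent.helper28.NM
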